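import Pool.Agent.W586.CS.Stm

set_option autoImplicit false
open MvPolynomial

namespace Pool.Agent.W481.CS

open Pool.Agent.W586.CS

theorem sq_nonneg' {d : ℕ} (g : Gau d) (p : MvPolynomial (Fin d) ℝ) : 0 ≤ g.Φ (p * p) :=
  g.nonneg _ fun x => by
    rw [map_mul]
    exact mul_self_nonneg _

theorem one_dir {d : ℕ} (g : Gau d) (j : Fin d) (p : MvPolynomial (Fin d) ℝ) :
    g.Φ (p * (X j * pderiv j p - (1 / 2 : ℝ) • pderiv j (pderiv j p))) =
      (1 / 2) * g.Φ (pderiv j p * pderiv j p) := by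
  have h := g.ibp j (p * pderiv j p)
  rw [pderiv_mul, map_add] at h
  have e1 : p * (X j * pderiv j p - (1 / 2 : ℝ) • pderiv j (pderiv j p)) =
      X j * (p * pderiv j p) - (1 / 2 : ℝ) • (p * pderiv j (pderiv j p)) := by
    rw [mul_sub, mul_smul_comm]
    ring
  rw [e1, map_sub, map_smul, smul_eq_mul]
  linarith

theorem main : S_MPOS := by
  intro d ι _ g f hf
  unfold ip
  refine Finset.sum_le_sum fun I _ => Finset.sum_le_sum fun a _ => ?_
  rcases Nat.even_or_odd I.card with hI | hI
  · rw [hf I a hI]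
    simp
  · have hc : (1 : ℝ) ≤ (I.card : ℝ) := by
      have := hI.pos
      exact_mod_cast this
    have hexp : g.Φ (f I a * MM f I a) =
        ∑ j : Fin d, (1 / 2) * g.Φ (pderiv j (f I a) * pderiv j (f I a)) +
          (I.card : ℝ) * g.Φ (f I a * f I a) := by
      unfold MM
      rw [mul_add, map_add, Finset.mul_sum, map_sum, mul_smul_comm, map_smul, smul_eq_mul]
      congr 1
      exact Finset.sum_congr rfl fun j _ => one_dir g j (f I a)
    rw [hexp]
    have h1 : 0 ≤ ∑ j : Fin d, (1 / 2) * g.Φ (pderiv j (f I a) * pderiv j (f I a)) :=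
      Finset.sum_nonneg fun j _ => mul_nonneg (by norm_num) (sq_nonneg' g _)
    have h2 := sq_nonneg' g (f I a)
    nlinarith

end Pool.Agent.W481.CS

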